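import Pool.Agent.U110.Sft

/-!
For every `d ≥ 2` none of the conditions (i), (ii), (iii) on subshifts of finite type of `ℤ^d` is
equivalent to another one.
-/

set_option autoImplicit false

namespace Pool.Agent.Results.MP_6540cb_lc.NoneEquivalent

open Pool.Agent.W927

/-- For every `d ≥ 2` there is a subshift of finite type with a Baire measurable equivariant map from
the free part of `2^(ℤ^d)` but without a `μ`-measurable one for some Borel probability measure `μ`
(hence without a Borel one), and there is a subshift of finite type which has a `μ`-measurable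
equivariant map for every Borel probability measure `μ` but no Borel one. -/
theorem result (d : ℕ) (hd : 2 ≤ d) :
    (∃ (k : ℕ) (S : Set (Conf d (Fin k))),
      IsSFT S ∧ HasBaire S ∧ ¬ HasMeasure S ∧ ¬ HasBorel S) ∧
    ∃ (k : ℕ) (S : Set (Conf d (Fin k))), IsSFT S ∧ HasMeasure S ∧ ¬ HasBorel S := by
  constructor
  · obtain ⟨k, ⟨e⟩⟩ : ∃ k, Nonempty (Fin k ≃ Pool.Agent.W927.BM.Lab) :=
      ⟨_, ⟨(Fintype.equivFin Pool.Agent.W927.BM.Lab).symm⟩⟩
    have h := Pool.Agent.U110.SP_not_measure hd e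
    refine ⟨k, _, Pool.Agent.U110.isSFT_SP hd e, Pool.Agent.U110.SP_baire hd e, h, ?_⟩
    rintro ⟨T, hT, hTm⟩
    exact h fun μ _ => ⟨T, hT, fun B hB => (hTm hB).nullMeasurableSet⟩
  · obtain ⟨k, ⟨e⟩⟩ : ∃ k, Nonempty (Fin k ≃ Lab) := ⟨_, ⟨(Fintype.equivFin Lab).symm⟩⟩
    let e0 : Fin d → ℤ := Pool.Agent.W927.BM.emb hd 1 0
    let e1 : Fin d → ℤ := Pool.Agent.W927.BM.emb hd 0 1
    have he : ∀ i j : ℤ, i • e0 + j • e1 = Pool.Agent.W927.BM.emb hd i j := by
      intro i j
      funext z
      simp only [e0, e1, Pool.Agent.W927.BM.emb, Pi.add_apply, Pi.smul_apply, Pi.single_apply]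
      split_ifs <;> simp
    have hi : ∀ i j : ℤ, i • e0 + j • e1 = 0 → i = 0 ∧ j = 0 := fun i j h =>
      Pool.Agent.W927.BM.emb_eq_zero hd (by rw [← he]; exact h)
    refine ⟨k, SB e e0 e1, isSFT_SB e e0 e1, Pool.Agent.U110.SB_measure e hi, SB_not_borel ?_ ?_⟩
    · intro h
      have := (hi 1 0 (by simp [h])).1
      omega
    · intro h
      have := (hi 0 1 (by simp [h])).2
      omega

end Pool.Agent.Results.MP_6540cb_lc.NoneEquivalent
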